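import Pool.Agent.TSB.Main

/-!
# Two-stage bootstrap percolation: the origin reaches state `2` by time `exp (C / q)`

Sites `0, 1, 2` on `ℤ²`; a `0` with at least two neighbours in state `1` becomes `1`, a `1` with at
least two neighbours in state `2` becomes `2`; the initial states are independent, equal to `1`
with probability `p` and to `2` with probability `q`.  If `q (log (1/p))² / p² → 0` then
`ℙ (T₂ < exp (C / q)) → 1` for all `C ≥ C₀`.
-/

open MeasureTheory Filter
open scoped Topology Classical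

noncomputable section

namespace Pool.Agent.Results.MP_a5207b_pr.OriginTime

/-- Configurations on `ℤ²` with states `0, 1, 2`. -/
abbrev Config := ℤ × ℤ → Fin 3

/-- The four nearest neighbours of a site. -/
def nb (x : ℤ × ℤ) : Finset (ℤ × ℤ) :=
  {(x.1 + 1, x.2), (x.1 - 1, x.2), (x.1, x.2 + 1), (x.1, x.2 - 1)}

/-- The number of nearest neighbours of `x` lying in `S`. -/
def cnt (S : Set (ℤ × ℤ)) (x : ℤ × ℤ) : ℕ := ((nb x).filter (fun y => y ∈ S)).card

/-- One synchronous update of the standard two-stage dynamics. -/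
def step (ξ : Config) : Config := fun x =>
  if ξ x = 0 then (if 2 ≤ cnt {y | ξ y = 1} x then 1 else 0)
  else if ξ x = 1 then (if 2 ≤ cnt {y | ξ y = 2} x then 2 else 1)
  else 2

/-- The configuration at time `t` started from `ω`. -/
def xi (ω : Config) : ℕ → Config
  | 0 => ω
  | t + 1 => step (xi ω t)

/-- The time at which the origin reaches state `2` (`⊤` if it never does). -/
def T2 (ω : Config) : ℕ∞ := ⨅ t ∈ {t : ℕ | xi ω t (0, 0) = 2}, (t : ℕ∞)

/-- Law of one site: `2` with probability `q`, `1` with probability `p`, `0` otherwise. -/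
def siteLaw (p q : ℝ) : Measure (Fin 3) :=
  ENNReal.ofReal (1 - p - q) • Measure.dirac 0 + ENNReal.ofReal p • Measure.dirac 1
    + ENNReal.ofReal q • Measure.dirac 2

/-- The product measure with densities `p` of ones and `q` of twos. -/
def law (p q : ℝ) : Measure Config := Measure.infinitePi (fun _ => siteLaw p q)

private theorem xi_eq (ω : Config) (t : ℕ) : xi ω t = TSB.xi ω t := by
  induction t with
  | zero => rfl
  | succ t ih =>
    show step (xi ω t) = TSB.step (TSB.xi ω t)
    rw [ih]
    rfl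

private theorem T2_eq (ω : Config) : T2 ω = TSB.T2 ω := by
  simp only [T2, TSB.T2, xi_eq]

theorem result : ∃ C₀ : ℝ, 0 < C₀ ∧ ∀ C : ℝ, C₀ ≤ C → ∀ q : ℝ → ℝ,
    (∀ᶠ p in 𝓝[>] (0 : ℝ), 0 < q p) →
    Tendsto (fun p => q p * (Real.log (1 / p)) ^ 2 / p ^ 2) (𝓝[>] 0) (𝓝 0) →
    Tendsto (fun p => (law p (q p)).real
      {ω | ∃ n : ℕ, (n : ℝ) < Real.exp (C / q p) ∧ T2 ω ≤ n}) (𝓝[>] 0) (𝓝 1) := by
  simp only [T2_eq]
  exact TSB.main

end Pool.Agent.Results.MP_a5207b_pr.OriginTime
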